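import Pool.Agent.K7.H95.PM.Main

/-!
# Every pure morphic binary word has a 2-abelian cube (MP_f6f9f1_co)

The answer to Rao's question is no: for each morphism `h` of the free monoid on two letters and
each letter `a` for which the infinite word `h^ω(a)` exists, that word has a factor which is a
2-abelian cube.
-/

set_option autoImplicit false

namespace Pool.Agent.Results.MP_f6f9f1_co.PureMorphicCube

open Pool.Agent.K7.H95.PM

/-- the number of occurrences of the word `t` as a factor of the word `u`: the number of suffixes
of `u` that begin with `t` -/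
def occ (t u : List Bool) : ℕ := u.tails.countP fun s => t.isPrefixOf s

/-- `u` and `v` are `k`-abelian equivalent: each word `t` with `1 ≤ |t| ≤ k` occurs in `u` exactly
as many times as in `v` -/
def KAbelianEquiv (k : ℕ) (u v : List Bool) : Prop :=
  ∀ t : List Bool, 1 ≤ t.length → t.length ≤ k → occ t u = occ t v

/-- `u` is a `k`-abelian `n`-power: the product of `n` nonempty words, such that any two
consecutive ones are `k`-abelian equivalent -/
def IsKAbelianPower (k n : ℕ) (u : List Bool) : Prop :=
  ∃ us : List (List Bool), us.length = n ∧ (∀ v ∈ us, v ≠ []) ∧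
    us.IsChain (KAbelianEquiv k) ∧ us.flatten = u

/-- the factor of length `n` at position `i` of the infinite word `x` -/
def factor (x : ℕ → Bool) (i n : ℕ) : List Bool := (List.range n).map fun j => x (i + j)

/-- `x` is a pure morphic binary word: there are a morphism `h` of the free monoid on two letters,
a letter `a` and a word `w` such that `h a = a w` and all the words `h^m w` are nonempty, and `x`
is the limit `h^ω(a)` of the words `h^n a`, that is, each `h^n a` is a prefix of `x` -/
def IsPureMorphic (x : ℕ → Bool) : Prop :=
  ∃ (h : List Bool → List Bool) (a : Bool) (w : List Bool),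
    (∀ u v, h (u ++ v) = h u ++ h v) ∧ h [a] = a :: w ∧ (∀ m, h^[m] w ≠ []) ∧
      ∀ n, factor x 0 (h^[n] [a]).length = h^[n] [a]

lemma occ_cons (t : List Bool) (c : Bool) (u : List Bool) :
    occ t (c :: u) = (if t.isPrefixOf (c :: u) = true then 1 else 0) + occ t u := by
  rw [occ, List.tails_cons, List.countP_cons]
  rw [occ]
  omega

lemma occ_one (b : Bool) (u : List Bool) : occ [b] u = u.count b := by
  induction u with
  | nil => rfl
  | cons c u ih =>
    rw [occ_cons, ih, List.count_cons]
    cases b <;> cases c <;> simp [add_comm]

lemma occ_two (p q : Bool) (u : List Bool) : occ [p, q] u = pc p q u := by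
  induction u with
  | nil => rfl
  | cons c u ih =>
    rw [occ_cons, ih]
    rcases u with _ | ⟨d, u⟩
    · simp [pc]
    · have : pc p q (c :: d :: u) = (if c = p ∧ d = q then 1 else 0) + pc p q (d :: u) := rfl
      rw [this]
      cases p <;> cases q <;> cases c <;> cases d <;> simp

lemma equiv_of_E2 {u v : List Bool} (h : E2 u v) : KAbelianEquiv 2 u v := by
  intro t h1 h2
  rcases t with _ | ⟨p, _ | ⟨q, _ | ⟨r, t⟩⟩⟩
  · simp at h1
  · rw [occ_one, occ_one]
    exact h.1.count_eq p
  · rw [occ_two, occ_two]
    exact h.2 p q
  · simp at h2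

lemma factor_length (x : ℕ → Bool) (i n : ℕ) : (factor x i n).length = n := by
  simp [factor]

lemma factor_add (x : ℕ → Bool) (i m n : ℕ) :
    factor x i (m + n) = factor x i m ++ factor x (i + m) n := by
  simp only [factor]
  rw [List.range_add, List.map_append, List.map_map]
  congr 1
  apply List.map_congr_left
  intro j _
  simp [Nat.add_assoc]

/-- the factors of `x` -/
def Fac (x : ℕ → Bool) (u : List Bool) : Prop := ∃ i, factor x i u.length = u

lemma fac_mid (x : ℕ → Bool) (u v w : List Bool) (h : Fac x (u ++ v ++ w)) : Fac x v := by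
  obtain ⟨i, hi⟩ := h
  rw [List.length_append, List.length_append, factor_add, factor_add] at hi
  have h1 := List.append_inj_left hi (by simp [factor_length])
  have h2 := List.append_inj_right h1 (by simp [factor_length])
  exact ⟨_, h2⟩

theorem result : ∀ x : ℕ → Bool, IsPureMorphic x → ∃ i n, IsKAbelianPower 2 3 (factor x i n) := by
  rintro x ⟨h, a, w, hmul, ha, hw, hx⟩
  have hnil : h [] = [] := by
    have := hmul [] []
    simpa using this
  set H : Bool → List Bool := fun c => h [c] with hH
  have hflat : ∀ u, h u = u.flatMap H := by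
    intro u
    induction u with
    | nil => simpa using hnil
    | cons c u ih =>
      have : c :: u = [c] ++ u := rfl
      rw [this, hmul, ih]
      simp [hH]
  -- iterates are morphisms
  have hiter : ∀ n u v, h^[n] (u ++ v) = h^[n] u ++ h^[n] v := by
    intro n
    induction n with
    | zero => intro u v; rfl
    | succ n ih =>
      intro u v
      rw [Function.iterate_succ_apply, Function.iterate_succ_apply, Function.iterate_succ_apply,
        hmul, ih]
  -- the lengths of the prefixes tend to infinity
  have hlen : ∀ n, n ≤ (h^[n] [a]).length := by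
    intro n
    induction n with
    | zero => exact Nat.zero_le _
    | succ n ih =>
      have e : h^[n + 1] [a] = h^[n] [a] ++ h^[n] w := by
        rw [Function.iterate_succ_apply, ha, ← hiter]
        rfl
      rw [e, List.length_append]
      have := List.length_pos_of_ne_nil (hw n)
      omega
  have hclosed : ∀ u, Fac x u → Fac x (u.flatMap H) := by
    rintro u ⟨i, hi⟩
    set N := i + u.length with hN
    have hNl := hlen N
    obtain ⟨r, hr⟩ : ∃ r, (h^[N] [a]).length = i + u.length + r := ⟨_, (Nat.add_sub_cancel' hNl).symm⟩
    have e1 : h^[N] [a] = factor x 0 i ++ u ++ factor x (i + u.length) r := by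
      rw [← hx N, hr, factor_add, factor_add]
      rw [Nat.zero_add, Nat.zero_add, hi]
    have e2 : h^[N + 1] [a] = h (factor x 0 i) ++ h u ++ h (factor x (i + u.length) r) := by
      rw [Function.iterate_succ_apply', e1, hmul, hmul]
    have h3 : Fac x (h (factor x 0 i) ++ h u ++ h (factor x (i + u.length) r)) := by
      rw [← e2]
      exact ⟨0, hx (N + 1)⟩
    rw [← hflat]
    exact fac_mid x _ _ _ h3
  have hlong : ∀ n, ∃ u, Fac x u ∧ u.length = n := fun n =>
    ⟨factor x 0 n, ⟨0, by rw [factor_length]⟩, factor_length x 0 n⟩
  have hHa : H a = a :: w := ha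
  have hw0 : w ≠ [] := hw 0
  have hw1 : w.flatMap H ≠ [] := by
    rw [← hflat]
    exact hw 1
  obtain ⟨u, v, z, ⟨i, hi⟩, hne, h1, h2⟩ :=
    lang_cube (L := Fac x) (fac_mid x) hclosed hlong hHa hw0 hw1 ⟨0, hx 0⟩
  refine ⟨i, (u ++ v ++ z).length, [u, v, z], rfl, ?_, ?_, ?_⟩
  · have l1 := h1.1.length_eq
    have l2 := h2.1.length_eq
    have l0 := List.length_pos_of_ne_nil hne
    intro y hy
    simp only [List.mem_cons, List.not_mem_nil, or_false] at hy
    rcases hy with rfl | rfl | rfl
    · exact hne
    · exact List.ne_nil_of_length_pos (by omega)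
    · exact List.ne_nil_of_length_pos (by omega)
  · simp [equiv_of_E2 h1, equiv_of_E2 h2]
  · rw [hi]
    simp

end Pool.Agent.Results.MP_f6f9f1_co.PureMorphicCube
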